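import Pool.Agent.W734.TWB.Stms

set_option autoImplicit false

noncomputable section

namespace Pool.Agent.W912.TWB

open MeasureTheory Set Filter Metric
open Pool.Agent.W734.TWB

/-- pointwise identity -/
theorem ident (φ : E3 → ℝ) (hφ : ContDiff ℝ 1 φ) (v : E3 → ℂ) (hv : ContDiff ℝ 1 v) (P : ℝ)
    (y : E3) : g3 (fun y => (φ y * P) • v y) y =
      (φ y * P) ^ 2 * g3 v y + dot3 φ (fun y => P ^ 2 * (φ y * ‖v y‖ ^ 2)) y := by
  unfold g3 dot3
  rw [Finset.mul_sum, ← Finset.sum_add_distrib]
  refine Finset.sum_congr rfl fun k _ => ?_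
  have dφ : HasFDerivAt φ (fderiv ℝ φ y) y := (hφ.differentiable (by norm_num) y).hasFDerivAt
  have dv : HasFDerivAt v (fderiv ℝ v y) y := (hv.differentiable (by norm_num) y).hasFDerivAt
  have h1 := (dφ.mul_const P).smul dv
  have h2 := (dφ.mul dv.norm_sq).const_mul (P ^ 2)
  have e1 : fderiv ℝ (fun y => (φ y * P) • v y) y = _ := h1.fderiv
  have e2 : fderiv ℝ (fun y => P ^ 2 * (φ y * ‖v y‖ ^ 2)) y = _ := h2.fderiv
  rw [e1, e2]
  set e : E3 := EuclideanSpace.single k (1 : ℝ)
  set p : ℝ := fderiv ℝ φ y e with hp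
  set b : ℂ := fderiv ℝ v y e with hb
  simp only [add_apply, smul_apply,
    ContinuousLinearMap.smulRight_apply, ContinuousLinearMap.comp_apply, smul_eq_mul,
    innerSL_apply_apply, ← hp, ← hb]
  rw [norm_add_sq_real, norm_smul, norm_smul, inner_smul_left, inner_smul_right,
    Real.norm_eq_abs, Real.norm_eq_abs, mul_pow, mul_pow, sq_abs, sq_abs, real_inner_comm]
  simp
  ring

theorem continuous_g3 (u : E3 → ℂ) (hu : ContDiff ℝ 1 u) : Continuous (g3 u) := by
  unfold g3
  refine continuous_finsetSum _ fun k _ => ?_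
  exact (((hu.continuous_fderiv (by norm_num)).clm_apply continuous_const).norm).pow 2

theorem continuous_dot3 (f g : E3 → ℝ) (hf : ContDiff ℝ 1 f) (hg : ContDiff ℝ 1 g) :
    Continuous (dot3 f g) := by
  unfold dot3
  refine continuous_finsetSum _ fun k _ => ?_
  exact ((hf.continuous_fderiv (by norm_num)).clm_apply continuous_const).mul
    ((hg.continuous_fderiv (by norm_num)).clm_apply continuous_const)

/-- the inequality on one slice -/
theorem slice (Q : E3 → ℝ) (hQ : Measurable Q) (hQ0 : ∀ x, 0 ≤ Q x) (hQb : ∃ M : ℝ, ∀ x, Q x ≤ M)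
    (lam' : ℝ) (φ : E3 → ℝ) (hφ : ContDiff ℝ 1 φ) (hp : ∀ x, 0 < φ x) (hS : SuperSol Q lam' φ)
    (v : E3 → ℂ) (hv : ContDiff ℝ 1 v) (hc : HasCompactSupport v) (P : ℝ) :
    0 ≤ ∫ y, (g3 (fun y => (φ y * P) • v y) y + Q y * ‖(φ y * P) • v y‖ ^ 2
      - lam' * ‖(φ y * P) • v y‖ ^ 2 - (φ y * P) ^ 2 * g3 v y) := by
  set η : E3 → ℝ := fun y => P ^ 2 * (φ y * ‖v y‖ ^ 2) with hη
  have cη : ContDiff ℝ 1 η := contDiff_const.mul (hφ.mul (hv.norm_sq ℝ))
  have sη : HasCompactSupport η := by
    refine hc.mono ?_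
    intro y hy
    rw [Function.mem_support] at hy ⊢
    intro h
    apply hy
    simp [hη, h]
  have nη : ∀ x, 0 ≤ η x := fun x => by
    have := (hp x).le
    simp only [hη]
    positivity
  have h1 := hS η cη sη nη
  have h2 : ∀ y, ‖(φ y * P) • v y‖ ^ 2 = φ y * η y := by
    intro y
    rw [norm_smul, Real.norm_eq_abs, mul_pow, sq_abs]
    simp only [hη]
    ring
  have h3 : ∀ y, g3 (fun y => (φ y * P) • v y) y + Q y * ‖(φ y * P) • v y‖ ^ 2
      - lam' * ‖(φ y * P) • v y‖ ^ 2 - (φ y * P) ^ 2 * g3 v y =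
      (dot3 φ η y + Q y * φ y * η y) - lam' * (φ y * η y) := by
    intro y
    rw [ident φ hφ v hv P y, h2]
    ring
  simp_rw [h3]
  have cφη : Continuous fun y => φ y * η y := hφ.continuous.mul cη.continuous
  have iφη : Integrable fun y => φ y * η y := cφη.integrable_of_hasCompactSupport sη.mul_left
  have i1 : Integrable fun y => dot3 φ η y := by
    refine (continuous_dot3 φ η hφ cη).integrable_of_hasCompactSupport ?_
    refine (sη.fderiv ℝ).mono ?_
    intro y hy
    rw [Function.mem_support] at hy ⊢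
    intro h
    apply hy
    unfold dot3
    simp [h]
  have i2 : Integrable fun y => Q y * φ y * η y := by
    obtain ⟨M, hM⟩ := hQb
    have h5 : Integrable fun y => Q y * (φ y * η y) := by
      refine iφη.bdd_mul (c := |M|) hQ.aestronglyMeasurable (Eventually.of_forall fun y => ?_)
      rw [Real.norm_eq_abs, abs_of_nonneg (hQ0 y)]
      exact (hM y).trans (le_abs_self _)
    refine h5.congr (Eventually.of_forall fun y => ?_)
    simp only
    ring
  have i4 : Integrable fun y => dot3 φ η y + Q y * φ y * η y := i1.add i2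
  rw [integral_sub i4 (iφη.const_mul _), integral_const_mul]
  linarith

/-- the derivative of a slice -/
theorem fderiv_slice {N : ℕ} {E : Type} [NormedAddCommGroup E] [NormedSpace ℝ E]
    (F : Cfg N → E) (hF : ContDiff ℝ 1 F) (x : Cfg N) (i : Fin N) (y e : E3) :
    fderiv ℝ (fun y => F (Function.update x i y)) y e =
      fderiv ℝ F (Function.update x i y) (Pi.single i e) := by
  have h1 : HasFDerivAt F (fderiv ℝ F (Function.update x i y)) (Function.update x i y) :=
    (hF.differentiable (by norm_num) _).hasFDerivAt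
  have h2 := h1.comp y (hasFDerivAt_update (𝕜 := ℝ) x y)
  have h3 : fderiv ℝ (fun y => F (Function.update x i y)) y = _ := h2.fderiv
  rw [h3, ContinuousLinearMap.comp_apply]
  congr 1
  ext j
  by_cases hj : j = i
  · subst hj
    simp
  · simp [hj]

theorem contDiff_slice {N : ℕ} {E : Type} [NormedAddCommGroup E] [NormedSpace ℝ E]
    (F : Cfg N → E) (hF : ContDiff ℝ 1 F) (x : Cfg N) (i : Fin N) :
    ContDiff ℝ 1 (fun y => F (Function.update x i y)) := by
  refine hF.comp ?_
  rw [contDiff_pi]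
  intro j
  by_cases hj : j = i
  · subst hj
    have : (fun y : E3 => Function.update x j y j) = id := by
      funext y; simp
    rw [this]
    exact contDiff_id
  · simpa [hj] using contDiff_const

theorem supp_slice {N : ℕ} {E : Type} [NormedAddCommGroup E] [NormedSpace ℝ E]
    (F : Cfg N → E) (hF : HasCompactSupport F) (x : Cfg N) (i : Fin N) :
    HasCompactSupport (fun y => F (Function.update x i y)) := by
  refine HasCompactSupport.intro (K := (fun z : Cfg N => z i) '' tsupport F)
    (hF.isCompact.image (continuous_apply i)) ?_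
  intro y hy
  by_contra h
  apply hy
  exact ⟨Function.update x i y, subset_tsupport _ h, by simp⟩

theorem continuous_gsq {N : ℕ} (F : Cfg N → ℂ) (hF : ContDiff ℝ 1 F) (i : Fin N) :
    Continuous (gsq F i) := by
  unfold gsq
  refine continuous_finsetSum _ fun k _ => ?_
  exact (((hF.continuous_fderiv (by norm_num)).clm_apply continuous_const).norm).pow 2

theorem supp_gsq {N : ℕ} (F : Cfg N → ℂ) (hF : HasCompactSupport F) (i : Fin N) :
    HasCompactSupport (gsq F i) := by
  refine (hF.fderiv ℝ).mono ?_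
  intro y hy
  rw [Function.mem_support] at hy ⊢
  intro h
  apply hy
  unfold gsq
  simp [h]

theorem fact (hFUB : S_FUB) : S_FACT := by
  intro Q hQ hQ0 hQb lam' φ hφ hp hS N ψ hψ hc
  set Φ : Cfg N → ℝ := fun y => ∏ i, φ (y i) with hΦ
  have hΦp : ∀ y, 0 < Φ y := fun y => Finset.prod_pos fun i _ => hp _
  have cΦ : ContDiff ℝ 1 Φ := by
    rw [hΦ]
    exact contDiff_prod fun i _ => hφ.comp (contDiff_apply ℝ E3 i)
  set F : Cfg N → ℂ := fun y : Cfg N => ψ y / ((Φ y : ℝ) : ℂ) with hF
  have hFψ : ∀ y, ψ y = Φ y • F y := by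
    intro y
    have h0 : ((Φ y : ℝ) : ℂ) ≠ 0 := by
      exact_mod_cast (hΦp y).ne'
    simp only [hF, Complex.real_smul]
    rw [mul_div_cancel₀ _ h0]
  have hFs : F = fun y => (Φ y)⁻¹ • ψ y := by
    funext y
    simp only [hF, Complex.real_smul, Complex.ofReal_inv]
    rw [div_eq_mul_inv, mul_comm]
  have cF : ContDiff ℝ 1 F := by
    rw [hFs]
    exact (cΦ.inv fun y => (hΦp y).ne').smul hψ
  have sF : HasCompactSupport F := by
    refine hc.mono ?_
    intro y hy
    rw [Function.mem_support] at hy ⊢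
    intro h
    apply hy
    simp [hF, h]
  have hwt : ∀ x, wt φ x = Φ x ^ 2 := by
    intro x
    unfold wt
    simp only [hΦ, Finset.prod_pow]
  -- integrability
  have iψ : Integrable fun x => ‖ψ x‖ ^ 2 := by
    refine (hψ.continuous.norm.pow 2).integrable_of_hasCompactSupport ?_
    refine hc.mono ?_
    intro y hy
    rw [Function.mem_support] at hy ⊢
    intro h
    apply hy
    simp [h]
  have i1 : ∀ i, Integrable (gsq ψ i) := fun i =>
    (continuous_gsq ψ hψ i).integrable_of_hasCompactSupport (supp_gsq ψ hc i)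
  have i2 : ∀ i, Integrable fun x : Cfg N => Q (x i) * ‖ψ x‖ ^ 2 := by
    intro i
    obtain ⟨M, hM⟩ := hQb
    refine iψ.bdd_mul (c := |M|) (hQ.comp (measurable_pi_apply i)).aestronglyMeasurable
      (Eventually.of_forall fun y => ?_)
    rw [Real.norm_eq_abs, abs_of_nonneg (hQ0 _)]
    exact (hM _).trans (le_abs_self _)
  have i3 : ∀ i, Integrable fun x : Cfg N => wt φ x * gsq F i x := by
    intro i
    refine Continuous.integrable_of_hasCompactSupport ?_ (supp_gsq F sF i).mul_left
    refine Continuous.mul ?_ (continuous_gsq F cF i)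
    have h0 : (wt φ : Cfg N → ℝ) = fun x => Φ x ^ 2 := funext hwt
    rw [h0]
    exact cΦ.continuous.pow 2
  have i4 : ∀ i, Integrable fun x : Cfg N => gsq ψ i x + Q (x i) * ‖ψ x‖ ^ 2 := fun i =>
    (i1 i).add (i2 i)
  have i5 : ∀ i, Integrable fun x : Cfg N => gsq ψ i x + Q (x i) * ‖ψ x‖ ^ 2
      - lam' * ‖ψ x‖ ^ 2 := fun i => (i4 i).sub (iψ.const_mul lam')
  -- the estimate for one particle
  have key : ∀ i : Fin N, 0 ≤ ∫ x : Cfg N, (gsq ψ i x + Q (x i) * ‖ψ x‖ ^ 2
      - lam' * ‖ψ x‖ ^ 2 - wt φ x * gsq F i x) := by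
    intro i
    have hint : Integrable fun x : Cfg N => (gsq ψ i x + Q (x i) * ‖ψ x‖ ^ 2
      - lam' * ‖ψ x‖ ^ 2 - wt φ x * gsq F i x) :=
      (((i1 i).add (i2 i)).sub (iψ.const_mul lam')).sub (i3 i)
    rw [((hFUB N _ hint).1 i).2.2]
    refine integral_nonneg fun x => ?_
    set P : ℝ := ∏ j ∈ Finset.univ.erase i, φ (x j) with hP
    have hΦu : ∀ y, Φ (Function.update x i y) = φ y * P := by
      intro y
      simp only [hΦ, hP]
      rw [← Finset.mul_prod_erase Finset.univ _ (Finset.mem_univ i)]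
      simp only [Function.update_self]
      congr 1
      refine Finset.prod_congr rfl fun j hj => ?_
      rw [Function.update_of_ne (Finset.ne_of_mem_erase hj)]
    have h1 := slice Q hQ hQ0 hQb lam' φ hφ hp hS (fun y => F (Function.update x i y))
      (contDiff_slice F cF x i) (supp_slice F sF x i) P
    refine h1.trans_eq ?_
    refine integral_congr_ae (Eventually.of_forall fun y => ?_)
    simp only
    have h2 : (fun y => (φ y * P) • F (Function.update x i y)) =
        fun y => ψ (Function.update x i y) := by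
      funext y
      rw [hFψ, hΦu]
    have h3 : (φ y * P) • F (Function.update x i y) = ψ (Function.update x i y) := congrFun h2 y
    rw [h2, h3, hwt, hΦu, Function.update_self]
    have h4 : g3 (fun y => ψ (Function.update x i y)) y = gsq ψ i (Function.update x i y) := by
      unfold g3 gsq
      refine Finset.sum_congr rfl fun k _ => ?_
      rw [fderiv_slice ψ hψ]
    have h5 : g3 (fun y => F (Function.update x i y)) y = gsq F i (Function.update x i y) := by
      unfold g3 gsq
      refine Finset.sum_congr rfl fun k _ => ?_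
      rw [fderiv_slice F cF]
    rw [h4, h5]
  have hsum : 0 ≤ ∑ i : Fin N, ∫ x : Cfg N, (gsq ψ i x + Q (x i) * ‖ψ x‖ ^ 2
      - lam' * ‖ψ x‖ ^ 2 - wt φ x * gsq F i x) := Finset.sum_nonneg fun i _ => key i
  have e1 : ∫ x, (kin ψ x + (∑ i, Q (x i)) * ‖ψ x‖ ^ 2) =
      ∑ i : Fin N, ∫ x : Cfg N, (gsq ψ i x + Q (x i) * ‖ψ x‖ ^ 2) := by
    rw [← integral_finsetSum _ fun i _ => i4 i]
    refine integral_congr_ae (Eventually.of_forall fun x => ?_)
    simp only [kin]
    rw [Finset.sum_add_distrib, Finset.sum_mul]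
  have e2 : ∫ x, wt φ x * kin F x = ∑ i : Fin N, ∫ x : Cfg N, wt φ x * gsq F i x := by
    rw [← integral_finsetSum _ fun i _ => i3 i]
    refine integral_congr_ae (Eventually.of_forall fun x => ?_)
    simp only [kin]
    rw [Finset.mul_sum]
  have e3 : ∀ i : Fin N, ∫ x : Cfg N, (gsq ψ i x + Q (x i) * ‖ψ x‖ ^ 2
      - lam' * ‖ψ x‖ ^ 2 - wt φ x * gsq F i x) =
      (∫ x : Cfg N, (gsq ψ i x + Q (x i) * ‖ψ x‖ ^ 2)) - lam' * (∫ x, ‖ψ x‖ ^ 2)
        - ∫ x : Cfg N, wt φ x * gsq F i x := by
    intro i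
    rw [integral_sub (i5 i) (i3 i), integral_sub (i4 i) (iψ.const_mul lam'), integral_const_mul]
  simp_rw [e3] at hsum
  rw [Finset.sum_sub_distrib, Finset.sum_sub_distrib, ← e1, ← e2, Finset.sum_const,
    Finset.card_univ, Fintype.card_fin, nsmul_eq_mul] at hsum
  change (N : ℝ) * lam' * (∫ x, ‖ψ x‖ ^ 2) + (∫ x, wt φ x * kin F x) ≤ _
  linarith

end Pool.Agent.W912.TWB
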